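import Pool.Agent.Helper51.N9.Keep
import Pool.Agent.Helper72.N9.Shear

/-! MP_9b91d1_co, section 6, row MMH (helper51). -/

open scoped RealInnerProductSpace Topology

namespace Pool.Agent.Helper30.N9

namespace H51

open PlaneGraph

theorem crs_norm_sq (a b : E3) : ‖crs a b‖ ^ 2 = ⟪a, a⟫ * ⟪b, b⟫ - ⟪a, b⟫ ^ 2 := by
  rw [← real_inner_self_eq_norm_sq, crs_inner_self]

theorem inner_crs_left (a b : E3) : ⟪a, crs a b⟫ = 0 := by
  rw [real_inner_comm, crs_inner]
  simp only [det3]; ring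

theorem inner_crs_right (a b : E3) : ⟪b, crs a b⟫ = 0 := by
  rw [real_inner_comm, crs_inner]
  simp only [det3]; ring

theorem conn_of_conn3 {V : Type} [Fintype V] [DecidableEq V] {M : PlaneGraph V}
    (h3 : M.Conn3) : M.G.Connected := by
  have h1 := h3.2 ∅ (by simp)
  exact h1.map (SimpleGraph.Embedding.induce _).toHom (fun v => ⟨⟨v, by simp⟩, rfl⟩)

theorem par51 {n w : E3} (h : crs n w = 0) : ⟪n, n⟫ • w = ⟪n, w⟫ • n := by
  have c0 : n 1 * w 2 - n 2 * w 1 = 0 := by
    have := congrArg (fun z : E3 => z 0) h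
    simpa [crs] using this
  have c1 : n 2 * w 0 - n 0 * w 2 = 0 := by
    have := congrArg (fun z : E3 => z 1) h
    simpa [crs] using this
  have c2 : n 0 * w 1 - n 1 * w 0 = 0 := by
    have := congrArg (fun z : E3 => z 2) h
    simpa [crs] using this
  rw [inner_def, inner_def]
  ext i
  fin_cases i
  · simp
    linear_combination (-(n 1)) * c2 + n 2 * c1
  · simp
    linear_combination n 0 * c2 - n 2 * c0
  · simp
    linear_combination n 1 * c0 - n 0 * c1

/-- crs y (crs n y) = n for unit vectors with inner n y = 0 (in det form) -/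
theorem det3_crs_crs {n y : E3} (hy : ‖y‖ = 1) (hny : ⟪n, y⟫ = 0) (x : E3) :
    det3 y (crs n y) x = ⟪n, x⟫ := by
  have h1 : det3 y (crs n y) x = ⟪n, x⟫ * ⟪y, y⟫ - ⟪n, y⟫ * ⟪x, y⟫ := by
    simp only [det3, inner_def, crs]
    simp
    ring
  rw [h1, hny, real_inner_self_eq_norm_sq, hy]
  ring

/-- unit vectors orthogonal to n and w0 (independent) are plus or minus y -/
theorem perp_two {n w y x : E3} (hw : crs n w ≠ 0) (hy : y = nrm (crs n w)) (hx : ‖x‖ = 1)
    (h1 : ⟪n, x⟫ = 0) (h2 : ⟪w, x⟫ = 0) : x = y ∨ x = -y := by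
  have h3 : ⟪crs n w, crs n w⟫ • x = ⟪crs n w, x⟫ • crs n w := by
    have a1 : n 0 * x 0 + n 1 * x 1 + n 2 * x 2 = 0 := by rw [← inner_def]; exact h1
    have a2 : w 0 * x 0 + w 1 * x 1 + w 2 * x 2 = 0 := by rw [← inner_def]; exact h2
    have e1 : ⟪crs n w, crs n w⟫ = (n 1 * w 2 - n 2 * w 1) ^ 2 + (n 2 * w 0 - n 0 * w 2) ^ 2
        + (n 0 * w 1 - n 1 * w 0) ^ 2 := by
      rw [inner_def]
      simp only [crs]
      simp
      ring
    have e2 : ⟪crs n w, x⟫ = (n 1 * w 2 - n 2 * w 1) * x 0 + (n 2 * w 0 - n 0 * w 2) * x 1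
        + (n 0 * w 1 - n 1 * w 0) * x 2 := by
      rw [inner_def]
      simp only [crs]
      simp
    rw [e1, e2]
    ext i
    fin_cases i
    · simp [crs]
      linear_combination ((w 0 ^ 2 + w 1 ^ 2 + w 2 ^ 2) * n 0
        - (n 0 * w 0 + n 1 * w 1 + n 2 * w 2) * w 0) * a1
        + ((n 0 ^ 2 + n 1 ^ 2 + n 2 ^ 2) * w 0 - (n 0 * w 0 + n 1 * w 1 + n 2 * w 2) * n 0) * a2
    · simp [crs]
      linear_combination ((w 0 ^ 2 + w 1 ^ 2 + w 2 ^ 2) * n 1
        - (n 0 * w 0 + n 1 * w 1 + n 2 * w 2) * w 1) * a1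
        + ((n 0 ^ 2 + n 1 ^ 2 + n 2 ^ 2) * w 1 - (n 0 * w 0 + n 1 * w 1 + n 2 * w 2) * n 1) * a2
    · simp [crs]
      linear_combination ((w 0 ^ 2 + w 1 ^ 2 + w 2 ^ 2) * n 2
        - (n 0 * w 0 + n 1 * w 1 + n 2 * w 2) * w 2) * a1
        + ((n 0 ^ 2 + n 1 ^ 2 + n 2 ^ 2) * w 2 - (n 0 * w 0 + n 1 * w 1 + n 2 * w 2) * n 2) * a2
  have h4 : crs n w = ‖crs n w‖ • y := by
    rw [hy]
    unfold nrm
    rw [smul_smul, mul_inv_cancel₀ (norm_ne_zero_iff.mpr hw), one_smul]
  have hyn : ‖y‖ = 1 := by rw [hy]; exact norm_nrm hw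
  have h5 : x = ⟪y, x⟫ • y := by
    have h6 : ‖crs n w‖ ^ 2 ≠ 0 := pow_ne_zero _ (norm_ne_zero_iff.mpr hw)
    rw [real_inner_self_eq_norm_sq] at h3
    have h7 : ⟪crs n w, x⟫ • crs n w = ‖crs n w‖ ^ 2 • (⟪y, x⟫ • y) := by
      rw [smul_smul]
      conv_lhs => rw [h4]
      rw [real_inner_smul_left, smul_smul]
      congr 1
      have : ‖‖crs n w‖ • y‖ = ‖crs n w‖ := by rw [← h4]
      ring
    rw [h7] at h3
    exact smul_right_injective _ h6 h3
  have h8 : ⟪y, x⟫ ^ 2 = 1 := by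
    have := congrArg (fun z : E3 => ‖z‖) h5
    simp only [norm_smul, hx, hyn, mul_one, Real.norm_eq_abs] at this
    rw [← sq_abs, ← this, one_pow]
  have h10 : (⟪y, x⟫ - 1) * (⟪y, x⟫ + 1) = 0 := by linear_combination h8
  rcases (mul_eq_zero.mp h10).imp (fun h => (sub_eq_zero.mp h)) (fun h => (eq_neg_of_add_eq_zero_left h)) with h9 | h9
  · left; rw [h9, one_smul] at h5; exact h5
  · right; rw [h9, neg_one_smul] at h5; exact h5

end H51

open PlaneGraph H51 in
theorem st_MMH (hC : ST_CCOV) (hT : ST_MMT) : ST_MMH := by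
  intro V _ _ M p q h h' n U hsp hsq hloc hle hE hpure hq v0 hv0
  by_contra hv0q
  have hne := fun v : V => exists_dart hsp.c3 v
  have hkeep := st_KEEP hC V M p q h h' n U hsp hsq hE hq
  have hconn : M.G.Connected := conn_of_conn3 hsp.c3
  have hpos : ∀ v, M.InV U v → 0 < ⟪n, p v⟫ := by
    intro v hv
    obtain ⟨e, he⟩ := hne v
    have hge : 0 ≤ ⟪n, p v⟫ := by
      rw [← he]
      exact hE.up e (hv e he)
    rcases hge.eq_or_lt with h0 | h0
    · exfalso
      obtain ⟨d, hd, hd2⟩ := hC V M p h n U hsp hE (p v) (hsp.inc.unit v) h0.symm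
      rcases vertex_on_arc hsp.inc hne hd2 with h1 | h1
      · rw [h1] at hv
        exact (bd_not_inV hd).1 hv
      · rw [h1] at hv
        exact (bd_not_inV hd).2 hv
    · exact h0
  have hOnB : ∀ v, M.OnB U v → q v = p v := by
    rintro v ⟨d, hd, hd2 | hd2⟩
    · rw [← hd]; exact hq d hd2
    · obtain ⟨e, he, he2⟩ := next_bd hd2
      have : d.symm.snd = v := hd
      rw [← this, ← he2]
      exact hq e he
  obtain ⟨om, hw, ⟨d1, hd1⟩, hin, heq, hB, hlen, hout, hprop⟩ := hT V M p q n U hconn hloc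
    hsq.inc.unit hle hE.up hpos hOnB ⟨v0, hv0, hv0q⟩
  -- a stressed dart starting in B
  obtain ⟨d0, hd0, hd0B⟩ : ∃ d0, om d0 ≠ 0 ∧ M.InV U d0.fst ∧ q d0.fst ≠ p d0.fst := by
    rcases hB d1 hd1 with h1 | h1
    · exact ⟨d1, hd1, h1⟩
    · exact ⟨d1.symm, by rw [hw.symm]; exact hd1, h1⟩
  obtain ⟨u0, hu0⟩ : ∃ u0, u0 = d0.fst := ⟨_, rfl⟩
  rw [← hu0] at hd0B
  have hn0 := hpos u0 hd0B.1
  obtain ⟨w0, hw0⟩ : ∃ w0, w0 = (⟪n, p u0⟫)⁻¹ • (q u0 - p u0) := ⟨_, rfl⟩
  have hw0u : q u0 - p u0 = ⟪n, p u0⟫ • w0 := by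
    rw [hw0, smul_smul, mul_inv_cancel₀ hn0.ne', one_smul]
  -- the class of u0
  obtain ⟨B0, hB0⟩ : ∃ B0 : Set V, B0 = {u | (M.InV U u ∧ q u ≠ p u) ∧
    q u - p u = ⟪n, p u⟫ • w0} := ⟨_, rfl⟩
  have hB0m : ∀ u, u ∈ B0 ↔ (M.InV U u ∧ q u ≠ p u) ∧ q u - p u = ⟪n, p u⟫ • w0 := by
    intro u; rw [hB0]; rfl
  have hu0B : u0 ∈ B0 := (hB0m u0).mpr ⟨hd0B, hw0u⟩
  -- B0 is closed under stressed darts inside B
  have hclos : ∀ d, om d ≠ 0 → d.fst ∈ B0 → (M.InV U d.snd ∧ q d.snd ≠ p d.snd) →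
      d.snd ∈ B0 := by
    intro d hd h1 h2
    rw [hB0m] at h1 ⊢
    refine ⟨h2, ?_⟩
    have h3 := hprop d hd h1.1 h2
    rw [h1.2, smul_smul, mul_comm, ← smul_smul] at h3
    exact (smul_right_injective _ (hpos _ h1.1.1).ne' h3).symm
  -- outside neighbours
  have hnb : ∀ d, om d ≠ 0 → d.fst ∈ B0 → d.snd ∉ B0 → ⟪n, p d.snd⟫ = 0 ∧
      ⟪w0, p d.snd⟫ = 0 := by
    intro d hd h1 h2
    have h3 : ¬ (M.InV U d.snd ∧ q d.snd ≠ p d.snd) := fun h => h2 (hclos d hd h1 h)
    obtain ⟨h4, h5⟩ := hout d hd h3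
    refine ⟨h4, ?_⟩
    have h6 := hlen d hd
    rw [hOnB _ h5] at h6
    have h7 := ((hB0m _).mp h1)
    have h8 : ⟪q d.fst - p d.fst, p d.snd⟫ = 0 := by rw [inner_sub_left, h6]; ring
    rw [h7.2, real_inner_smul_left] at h8
    rcases mul_eq_zero.mp h8 with h9 | h9
    · exact absurd h9 (hpos _ h7.1.1).ne'
    · exact h9
  classical
  -- the restricted stress
  obtain ⟨om0, hom0⟩ : ∃ om0 : M.G.Dart → ℝ, om0 = fun d => if d.fst ∈ B0 ∨ d.snd ∈ B0
    then om d else 0 := ⟨_, rfl⟩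
  have hom0v : ∀ d, om0 d = if d.fst ∈ B0 ∨ d.snd ∈ B0 then om d else 0 := by
    intro d; rw [hom0]
  have hom0n : ∀ d, om0 d ≠ 0 → om d ≠ 0 ∧ (d.fst ∈ B0 ∨ d.snd ∈ B0) := by
    intro d hd
    rw [hom0v] at hd
    split_ifs at hd with hc
    · exact ⟨hd, hc⟩
    · exact absurd rfl hd
  have hwt0 : M.Wt om0 := by
    constructor
    · intro d
      rw [hom0v]
      split_ifs
      · exact hw.nonneg d
      · exact le_rfl
    · intro d
      rw [hom0v, hom0v]
      have : (d.symm.fst ∈ B0 ∨ d.symm.snd ∈ B0) ↔ (d.fst ∈ B0 ∨ d.snd ∈ B0) := by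
        change (d.snd ∈ B0 ∨ d.fst ∈ B0) ↔ _
        exact or_comm
      simp only [this, hw.symm]
  -- equilibrium
  have heq0 : ∀ v, M.InV U v → M.EqAt p om0 v := by
    intro v hv
    unfold EqAt
    by_cases hvB : v ∈ B0
    · rw [← heq v hv]
      apply Finset.sum_congr rfl
      intro d hd
      rw [Finset.mem_filter] at hd
      rw [hom0v, if_pos (Or.inl (by rw [hd.2]; exact hvB))]
    · apply Finset.sum_eq_zero
      intro d hd
      rw [Finset.mem_filter] at hd
      have : om0 d = 0 := by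
        by_contra hcon
        obtain ⟨h1, h2⟩ := hom0n d hcon
        rw [hd.2] at h2
        have h3 : d.snd ∈ B0 := h2.resolve_left hvB
        have h4 := hnb d.symm (by rw [hw.symm]; exact h1) h3 (by
          change d.fst ∉ B0
          rw [hd.2]; exact hvB)
        have h5 : ⟪n, p d.fst⟫ = 0 := h4.1
        rw [hd.2] at h5
        exact (hpos v hv).ne' h5
      rw [this, zero_smul]
  have hin0 : ∀ d, om0 d ≠ 0 → M.InD U d := fun d hd => hin d (hom0n d hd).1
  have hd00 : om0 d0 ≠ 0 := by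
    rw [hom0v, if_pos (Or.inl (by rw [← hu0]; exact hu0B))]
    exact hd0
  by_cases hcr : crs n w0 = 0
  · -- w0 is parallel to n
    have hpar : w0 = ⟪n, w0⟫ • n := by
      have h1 := par51 hcr
      rw [real_inner_self_eq_norm_sq, hE.un, one_pow, one_smul] at h1
      exact h1
    obtain ⟨a, ha⟩ : ∃ a, a = ⟪n, p u0⟫ := ⟨_, rfl⟩
    obtain ⟨l, hl⟩ : ∃ l, l = ⟪n, w0⟫ := ⟨_, rfl⟩
    rw [← hl] at hpar
    rw [← ha] at hn0 hw0u
    rw [hpar, smul_smul] at hw0u
    have hqu : q u0 = p u0 + (a * l) • n := by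
      rw [← hw0u]; abel
    have hnn : ⟪n, n⟫ = 1 := by rw [real_inner_self_eq_norm_sq, hE.un, one_pow]
    have h1 : ⟪q u0, q u0⟫ = 1 := by
      rw [real_inner_self_eq_norm_sq, hsq.inc.unit, one_pow]
    have h2 : ⟪p u0, p u0⟫ = 1 := by
      rw [real_inner_self_eq_norm_sq, hsp.inc.unit, one_pow]
    have h3 : ⟪p u0, n⟫ = a := by rw [ha, real_inner_comm]
    rw [hqu, inner_add_left, inner_add_right, inner_add_right, real_inner_smul_left,
      real_inner_smul_left, real_inner_smul_right, real_inner_smul_right, h2, hnn, h3, ← ha]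
      at h1
    have h4 : a ^ 2 * (l * (l + 2)) = 0 := by linear_combination h1
    rcases mul_eq_zero.mp h4 with h5 | h5
    · exact (pow_ne_zero 2 hn0.ne') h5
    rcases mul_eq_zero.mp h5 with h6 | h6
    · apply hd0B.2
      rw [hqu, h6, mul_zero, zero_smul, add_zero]
    · have h7 := hkeep u0 hd0B.1
      rw [hqu, inner_add_right, real_inner_smul_right, hnn, ← ha] at h7
      have h8 : l = -2 := by linarith
      rw [h8] at h7
      linarith
  · obtain ⟨y, hy⟩ : ∃ y, y = nrm (crs n w0) := ⟨_, rfl⟩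
    have hyn : ‖y‖ = 1 := by rw [hy]; exact norm_nrm hcr
    have hny : ⟪n, y⟫ = 0 := by
      rw [hy, inner_nrm, inner_crs_left, mul_zero]
    have hnyr : ‖crs n y‖ = 1 := by
      have h1 := crs_norm_sq n y
      rw [hny, real_inner_self_eq_norm_sq, real_inner_self_eq_norm_sq, hE.un, hyn] at h1
      have h2 : ‖crs n y‖ ^ 2 = 1 := by rw [h1]; norm_num
      exact (pow_eq_one_iff_of_nonneg (norm_nonneg _) two_ne_zero).mp h2
    have hsh := shear V M p y (crs n y) om0 hsp.inc.unit hyn hnyr (inner_crs_right n y) hwt0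
      (by
        intro d hd
        rw [det3_crs_crs hyn hny]
        exact hE.up d (hin0 d hd).1) (by
        apply Finset.sum_eq_zero
        intro v _
        have hz : ∑ d ∈ Finset.univ.filter (fun d : M.G.Dart => d.fst = v),
            om0 d * det3 y (p d.fst) (p d.snd) = 0 := by
          by_cases hv : M.InV U v
          · have h1 := congrArg (fun z : E3 => ⟪z, y⟫) (heq0 v hv)
            simp only [sum_inner, real_inner_smul_left, inner_zero_left] at h1
            rw [← h1]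
            apply Finset.sum_congr rfl
            intro d _
            rw [crs_inner, ← Pool.Agent.Helper30.N9.det3_rot y]
          · apply Finset.sum_eq_zero
            intro d hd
            rw [Finset.mem_filter] at hd
            by_cases hc : om0 d = 0
            · rw [hc, zero_mul]
            · obtain ⟨h1, h2⟩ := hom0n d hc
              have hvB : v ∉ B0 := fun h => hv ((hB0m v).mp h).1.1
              rw [hd.2] at h2
              have h3 : d.snd ∈ B0 := h2.resolve_left hvB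
              have h4 := hnb d.symm (by rw [hw.symm]; exact h1) h3 (by
                change d.fst ∉ B0
                rw [hd.2]; exact hvB)
              have h5 : ⟪n, p d.fst⟫ = 0 ∧ ⟪w0, p d.fst⟫ = 0 := h4
              rcases perp_two hcr hy (hsp.inc.unit _) h5.1 h5.2 with h6 | h6
              · rw [h6]
                have : det3 y y (p d.snd) = 0 := by simp only [det3]; ring
                rw [this, mul_zero]
              · rw [h6]
                have : det3 y (-y) (p d.snd) = 0 := by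
                  simp only [det3, PiLp.neg_apply]; ring
                rw [this, mul_zero]
        rw [hz, mul_zero])
    exact hd00 (hpure y hyn hny om0 hwt0 hin0 heq0 hsh d0)

end Pool.Agent.Helper30.N9
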