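import Pool.Agent.Helper24.N9.Deg3
import Pool.Agent.Helper93.N9.A5
import Pool.Agent.Helper93.N9.Reg1
import Pool.Agent.Helper74.N9.Reg
import Pool.Agent.Helper67.N9.Deg1A

/-! MP_9b91d1_co, section 6, row KEEP (helper51). -/

open scoped RealInnerProductSpace Topology

namespace Pool.Agent.Helper30.N9

namespace H51

open PlaneGraph

variable {V : Type} [Fintype V] [DecidableEq V] {M : PlaneGraph V}

/-- the end of a boundary dart is the start of a boundary dart -/
theorem next_bd {U : M.Face → Prop} {d : M.G.Dart} (hd : M.Bd U d) :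
    ∃ e, M.Bd U e ∧ e.fst = d.snd := by
  obtain ⟨f, hf, hf2⟩ := exists_bd_at (T := {w | U w}) (d := M.nxt d) (e := d.symm)
    (by rw [M.fc_nxt]; exact hd.1) hd.2 (by rw [M.nxt_fst]; rfl)
  rw [mem_bd93] at hf
  exact ⟨f, hf, by rw [hf2, M.nxt_fst]⟩

/-- vertices of a boundary dart are not inner vertices -/
theorem bd_not_inV {U : M.Face → Prop} {d : M.G.Dart} (hd : M.Bd U d) :
    ¬ M.InV U d.fst ∧ ¬ M.InV U d.snd := by
  constructor
  · intro h
    have h1 := h (M.nxt d.symm) (by rw [M.nxt_fst]; rfl)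
    rw [M.fc_nxt] at h1
    exact hd.2 h1
  · intro h
    exact hd.2 (h d.symm rfl)

/-- a vertex on an arc is an end of the dart -/
theorem vertex_on_arc {p : V → E3} (hp : M.InC p) (hne : ∀ v : V, ∃ e : M.G.Dart, e.fst = v)
    {d : M.G.Dart} {v : V} (hv : p v ∈ arc (p d.fst) (p d.snd)) : v = d.fst ∨ v = d.snd := by
  obtain ⟨e, he⟩ := hne v
  by_cases h : d.edge = e.edge
  · apply mem_edge
    rw [h, ← he]
    exact Sym2.mem_mk_left e.fst e.snd
  · obtain ⟨w, hw1, hw2, hw3⟩ := hp.embed d e h (p v) hv (by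
      rw [← he]; exact left_mem_arc (hp.unit _))
    have : v = w := hp.inj hw3
    rw [this]
    exact mem_edge hw1

theorem exists_dart (h3 : M.Conn3) (v : V) : ∃ e : M.G.Dart, e.fst = v := by
  by_cases hd : Nonempty M.G.Dart
  · obtain ⟨d0⟩ := hd
    obtain ⟨e, he, _⟩ := exists_third h3 v d0 d0
    exact ⟨e, he⟩
  · exfalso
    have h1 := h3.2 ∅ (by simp)
    have h4 : 4 ≤ Fintype.card V := h3.1
    obtain ⟨a, b, hab⟩ : ∃ a b : V, a ≠ b := by
      have : 1 < Fintype.card V := by omega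
      exact Fintype.exists_pair_of_one_lt_card this
    have h5 := h1.preconnected ⟨a, by simp⟩ ⟨b, by simp⟩
    obtain ⟨w⟩ := h5
    cases w with
    | nil => exact hab rfl
    | cons hadj _ =>
      exact hd ⟨⟨(_, _), SimpleGraph.Embedding.induce _ |>.map_rel_iff.mpr hadj⟩⟩

theorem cov_mono {q : V → E3} {h : M.Face → E3} {T T' : M.Face → Prop} {z : E3}
    (hz : M.Cov q h T z) (hT : ∀ w, T w → T' w) : M.Cov q h T' z := by
  obtain ⟨h1, h2, w, h3, h4⟩ := hz
  exact ⟨h1, h2, w, hT w h3, h4⟩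

/-- a point of an arc different from its ends -/
theorem exists_mid {u v : E3} (hu : ‖u‖ = 1) (hv : ‖v‖ = 1) (huv : u ≠ v) (huv' : u ≠ -v) :
    ∃ x ∈ arc u v, x ≠ u ∧ x ≠ v := by
  obtain ⟨h1, h2, h3, h4⟩ := pt_props hu hv huv huv' one_pos
  exact ⟨_, h2, h3, h4⟩

theorem crs_anti (a b : E3) : crs a b = - crs b a := by
  ext i
  fin_cases i <;> simp [crs] <;> ring

/-- the generic points with inner n y > 0 are covered by U -/
theorem up_cov {q : V → E3} {h : M.Face → E3} (hs : M.Std q h) {n : E3} {U : M.Face → Prop}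
    (hbd : ∀ d, M.Bd U d → ∃ c : ℝ, 0 < c ∧ crs (q d.fst) (q d.snd) = c • n)
    {d0 : M.G.Dart} (hd0 : M.Bd U d0) :
    ∀ y : E3, 0 < ⟪n, y⟫ → M.OffAll q (nrm y) → M.Cov q h U (nrm y) := by
  intro y hy ho
  have hdet : ∀ d, M.Bd U d → ∃ c : ℝ, 0 < c ∧ ∀ z, det3 (q d.fst) (q d.snd) z = c * ⟪n, z⟫ := by
    intro d hd
    obtain ⟨c, hc, h1⟩ := hbd d hd
    refine ⟨c, hc, fun z => ?_⟩
    rw [← crs_inner, h1, real_inner_smul_left]
  obtain ⟨x, hx, hx1, hx2⟩ := exists_mid (hs.inc.unit d0.fst) (hs.inc.unit d0.snd)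
    (hs.inc.q_ne d0) (hs.inc.ne_neg d0)
  obtain ⟨δ, hδ, hball⟩ := N9Ha.st_REG2 V M q h hs d0 x hx hx1 hx2
  obtain ⟨c0, hc0, hc0'⟩ := hdet d0 hd0
  have hnn : 0 < ⟪n, n⟫ := by
    have h1 : n ≠ 0 := by
      rintro rfl
      simp at hy
    exact real_inner_self_pos.mpr h1 
  have hxn : ⟪n, x⟫ = 0 := by
    obtain ⟨_, s, t, _, _, hst⟩ := hx
    have h1 : det3 (q d0.fst) (q d0.snd) x = 0 := by
      rw [hst, det3_add_right, det3_smul_right, det3_smul_right, det3_self_right,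
        det3_self_left]
      ring
    rw [hc0'] at h1
    rcases mul_eq_zero.mp h1 with h2 | h2
    · exact absurd h2 hc0.ne'
    · exact h2
  obtain ⟨τ, hτ, hmem⟩ := exists_left (n := n) (Metric.ball_mem_nhds x hδ)
  have hyn : 0 < ⟪n, x + τ • n⟫ := by
    rw [inner_add_right, real_inner_smul_right, hxn]
    have := mul_pos hτ hnn
    linarith
  have hcov := (hball _ hmem).2 (by rw [hc0']; exact mul_pos hc0 hyn)
  refine st_REG1 V M q h hs U {y | 0 < ⟪n, y⟫} ?_ ?_ ?_ (x + τ • n) hyn y hy ho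
    (cov_mono hcov (fun w hw => by rw [hw]; exact hd0.1))
  · apply Convex.isPreconnected
    intro a ha b hb s t hs' ht hst
    have ha' : 0 < ⟪n, a⟫ := ha
    have hb' : 0 < ⟪n, b⟫ := hb
    change 0 < ⟪n, s • a + t • b⟫
    rw [inner_add_right, real_inner_smul_right, real_inner_smul_right]
    rcases hs'.eq_or_lt with h1 | h1
    · have : t = 1 := by linarith
      rw [← h1, this]; linarith
    · have := mul_pos h1 ha'
      have := mul_nonneg ht hb'.le
      linarith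
  · rintro z hz rfl
    have : (0 : ℝ) < ⟪n, (0 : E3)⟫ := hz
    simp at this
  · intro z hz d hd
    obtain ⟨c, hc, hc'⟩ := hdet d hd
    apply not_mem_arc_of_det
    rw [hc']
    have hz' : 0 < ⟪n, z⟫ := hz
    exact (mul_pos hc hz').ne'

end H51

open PlaneGraph H51 in
theorem st_KEEP (hC : ST_CCOV) : ST_KEEP := by
  intro V _ _ M p q h h' n U hsp hsq hE hq v hv
  have hne := fun v : V => exists_dart hsp.c3 v
  have hq2 : ∀ d, M.Bd U d → q d.snd = p d.snd := by
    intro d hd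
    obtain ⟨e, he, he2⟩ := next_bd hd
    rw [← he2]
    exact hq e he
  have hbd : ∀ d, M.Bd U d → ∃ c : ℝ, 0 < c ∧ crs (q d.fst) (q d.snd) = c • n := by
    intro d hd
    rw [hq d hd, hq2 d hd]
    exact hE.bd d hd
  obtain ⟨d0, hd0⟩ := hE.ex
  have hdn : ∀ y : E3, ⟪n, y⟫ < 0 → M.OffAll q (nrm y) → M.Cov q h' (fun w => ¬ U w) (nrm y) := by
    intro y hy ho
    refine up_cov hsq (n := -n) (U := fun w => ¬ U w) ?_ (d0 := d0.symm) ?_ y ?_ ho
    · intro d hd
      have hd' : M.Bd U d.symm := by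
        refine ⟨not_not.mp hd.2, ?_⟩
        rw [SimpleGraph.Dart.symm_symm]
        exact hd.1
      obtain ⟨c, hc, h1⟩ := hbd _ hd'
      refine ⟨c, hc, ?_⟩
      have h2 : crs (q d.fst) (q d.snd) = - crs (q d.symm.fst) (q d.symm.snd) :=
        crs_anti _ _
      rw [h2, h1, smul_neg]
    · refine ⟨hd0.2, ?_⟩
      rw [SimpleGraph.Dart.symm_symm]
      exact not_not.mpr hd0.1
    · rw [inner_neg_left]; linarith
  obtain ⟨e, he⟩ := hne v
  have hge : 0 ≤ ⟪n, q v⟫ := by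
    rw [← he]
    apply st_VCL V M q h' hsq e n
    intro z hz
    by_contra hcon
    push Not at hcon
    have h1 := hdn z hcon (by rw [nrm_unit hz.1]; exact hz.2.1)
    rw [nrm_unit hz.1] at h1
    obtain ⟨w, hw1, hw2, _⟩ := (N9Ha.st_REG3 V M q h' hsq).1 _ _ z h1 hz
    apply hw1
    rw [hw2]
    exact hv e he
  rcases hge.eq_or_lt with h0 | h0
  · exfalso
    obtain ⟨d, hd, hd2⟩ := hC V M p h n U hsp hE (q v) (hsq.inc.unit v) h0.symm
    rw [← hq d hd, ← hq2 d hd] at hd2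
    rcases vertex_on_arc hsq.inc hne hd2 with h1 | h1
    · rw [h1] at hv
      exact (bd_not_inV hd).1 hv
    · rw [h1] at hv
      exact (bd_not_inV hd).2 hv
  · exact h0

end Pool.Agent.Helper30.N9
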